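import Mathlib
import Pool.Agent.W516.DRDefs
import Pool.Agent.W516.SC.Main

/-!
# The periods of the abelian varieties parametrized by Shimura curves

Let `f : X → S` be a family of abelian varieties defined over the field `K` of algebraic numbers
whose generic Mumford-Tate group is, up to its center, simple over `ℚ` and over the real numbers
the product of `SL_2(ℝ)` and of a compact group: these are the families which are pulled back from
Shimura curves, for example the families of elliptic curves, of false elliptic curves, and the
families of abelian varieties of dimension `2^(d-1)` with endomorphism ring `ℤ` constructed by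
Mumford for `d = 3`, whose powers carry Hodge classes which are not generated by divisors.
Let `s` be a point of `S` over `K` outside the Hodge locus, `A = X_s`, `W = H_1(A)`. The Lie
algebra `𝔪` of the monodromy group is the derived Lie algebra of the Lie algebra `𝔥` of the Hodge
group of `A`.

A rational tensor whose de Rham realization at `s` is defined over `K` (a de Rham-Betti class) gives
a polynomial relation with algebraic coefficients between the entries of the period matrix `P(s)`.
This relation holds on the whole fibre `B_{P,s}` if the tensor is invariant under `𝔪`. We prove: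
all de Rham-Betti classes in all degrees are invariant under `𝔪` if and only if this is true
for the de Rham-Betti endomorphisms of `W` (degree two), which is known by the theorem of Wüstholz.

In the Lean statement `η` is a basis of `H^1_dR(A)`, whose elements are linear maps `W → ℂ` by
integration, `τ = 2πi`, and `ω` is a polarization. The hypothesis `hdel` is a consequence of the
theorem of Deligne that the Hodge classes on `A` are de Rham-Betti classes; `hss` is a
consequence of the theorem of Wüstholz.

The proof: let `g` be the Lie algebra of the real endomorphisms of `ℝ ⊗ W` annihilating the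
de Rham-Betti classes. It contains the real hyperbolic parts of its elements. If its projection to
`sl_2(ℝ)` were not surjective, there would be an eigenvector `u` of `g` in `sl_2(ℝ)`. As `g`
generates the same associative algebra as `𝔪`, the endomorphism `u` is neither central nor, by the
positivity of the Hodge metric, nilpotent. So `g` contains an element with component `h` in
`sl_2(ℝ)`, whose hyperbolic part is `h` as the other components are compact. Hence `sl_2(ℝ)` is
contained in `g`, and, as `g` is defined over `ℚ` and `𝔪` is simple over `ℚ`, so is `𝔪`.
-/

namespace Pool.Agent.Results.MP_5591bc_ag.ShimuraCurves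

open Module TensorProduct Pool.Agent.H204R3.SP Pool.Agent.W516.DR Pool.Agent.W516.KC
  Pool.Agent.W516.SC

/-- Degree two suffices for the de Rham-Betti classes of the abelian varieties on a Shimura
curve. -/
theorem result {k K : Type} [Field k] [CharZero k] [Field K] [IsAlgClosed K] [CharZero K]
    [Algebra k K] [Algebra k ℂ] [Algebra K ℂ] [IsScalarTower k K ℂ] [Algebra k ℝ]
    [IsScalarTower k ℝ ℂ]
    -- the homology of `A` with a polarization
    {W : Type} [AddCommGroup W] [Module k W] [FiniteDimensional k W]
    (ω : W →ₗ[k] W →ₗ[k] k) (hnd : ∀ u, (∀ v, ω u v = 0) → u = 0)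
    -- the Lie algebra of the Hodge group and its derived algebra
    (𝔥 𝔪 : Submodule k (Module.End k W)) (hle : 𝔪 ≤ 𝔥) (hsimple : IsSimpleAlg 𝔪)
    (hcurve : OneNoncompactFactor 𝔥 𝔪) (hω𝔪 : ∀ x ∈ 𝔪, ∀ u v, ω (x u) v + ω u (x v) = 0)
    -- the de Rham cohomology
    {ν : Type} [Fintype ν] [DecidableEq ν] (η : Basis ν ℂ (W →ₗ[k] ℂ)) (τ : ℂ) (hτ : τ ≠ 0)
    (hω : IsDeRhamBettiBilinear K η τ ω)
    -- the theorem of Deligne
    (hdel : ∀ x : Module.End k W, KillsAll K η τ x → x ∈ 𝔥)
    -- semisimplicity
    (hss : DeRhamBettiSemisimple K η) :
    DegreeTwo K η 𝔪 ↔ ∀ x ∈ 𝔪, KillsAll K η τ x := by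
  constructor
  · intro hend x hx r φ hφ
    exact kills_weight (K := K) 𝔥 𝔪 η hτ hle hsimple hcurve hdel hss hend r φ hφ x hx
  · intro h P hP x hx
    have h1 := h x hx 1 _ (one2_drb _ _ _ (drb_comp_end (η : ν → (W →ₗ[k] ℂ)) τ ω hω P hP))
    rw [kills_one2] at h1
    refine LinearMap.ext fun u => ?_
    rw [Module.End.mul_apply, Module.End.mul_apply, ← sub_eq_zero]
    refine hnd _ fun v => ?_
    have h2 := h1 u v
    have h3 := hω𝔪 x hx (P u) v
    simp only [LinearMap.comp_apply] at h2
    rw [map_sub, LinearMap.sub_apply]
    linear_combination h2 - h3

end Pool.Agent.Results.MP_5591bc_ag.ShimuraCurves
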